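import Pool.Agent.N26.TP.CmpB

/-!
# TP/Cmp: comparison of energies (helper289, for helper658)
-/

set_option autoImplicit false

open scoped BigOperators ComplexConjugate Classical

noncomputable section

namespace Pool.Agent.N289.TP

open Pool.Agent.Y738.PE Pool.Agent.N658.TP Pool.Agent.N26.TP

theorem cmp : StmCmp := by
  intro d r n L _ _ hr hrn hL Ψ hΨ hTI
  obtain ⟨Φ, hΦ1, hΦ2⟩ := Pool.Agent.Y65.PE.purify d L n (by omega) hL Ψ hΨ
  obtain ⟨φ, hφ⟩ : ∃ φ : Conf d (2 * n) → ℂ,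
    φ = fun s => Φ ((Pool.Agent.Y155.PE.gE d (2 * n)).symm s) := ⟨_, rfl⟩
  have hφg : (fun σ : BConf d (2 * n) => φ (glue σ)) = Φ := by
    funext σ
    rw [hφ]
    show Φ ((Pool.Agent.Y155.PE.gE d (2 * n)).symm (glue σ)) = Φ σ
    rw [← Pool.Agent.Y155.PE.gE_apply, Equiv.symm_apply_apply]
  have hφ1 : nrm φ = 1 := by
    have h := (Pool.Agent.Y155.PE.cut d (2 * n) 0 φ (0, 0) (by simp) (fun _ _ => 0)).1
    rw [hφg, hΦ1] at h
    exact h.symm
  have hgood : ∀ (p : ℕ × ℕ), p.1 + r ≤ 2 * n → p.2 + r ≤ 2 * n →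
      (p.1 + r ≤ n ∨ n ≤ p.1) → ∀ B : BConf d r → BConf d r → ℂ,
      expec φ (((p.1 : ℕ) : ZMod (2 * n)), ((p.2 : ℕ) : ZMod (2 * n))) B = expec Ψ 0 B := by
    intro p h1 h2 h3 B
    have e1 := (Pool.Agent.Y155.PE.cut d (2 * n) r φ p ⟨h1, h2⟩ B).2 hr
    rw [hφg] at e1
    rw [← e1, hΦ2 r p ⟨h1, h2⟩ hr h3 B, hTI]
  refine ⟨φ, hφ1, ?_⟩
  intro B hB
  have hdiff : enS φ B - ((2 * n : ℕ) : ℂ) ^ 2 * expec Ψ 0 B =
      ∑ u : Site (2 * n), (expec φ u B - expec Ψ 0 B) := by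
    unfold enS
    rw [Finset.sum_sub_distrib, Finset.sum_const, Finset.card_univ]
    have hc : Fintype.card (Site (2 * n)) = (2 * n) ^ 2 := by
      rw [Fintype.card_prod, ZMod.card]
      ring
    rw [hc, nsmul_eq_mul]
    push_cast
    ring
  rw [hdiff]
  have hterm : ∀ u : Site (2 * n), ‖expec φ u B - expec Ψ 0 B‖ ≤
      if ¬ Gd r n u then (2 : ℝ) else 0 := by
    intro u
    by_cases hu : ¬ Gd r n u
    · rw [if_pos hu]
      have b1 := Pool.Agent.Y65.PE.bound d (2 * n) r (by omega) φ u B hB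
      have b2 := Pool.Agent.Y65.PE.bound d L r (by omega) Ψ 0 B hB
      rw [hφ1] at b1
      rw [hΨ] at b2
      refine (norm_sub_le _ _).trans ?_
      linarith
    · rw [if_neg hu]
      rw [not_not] at hu
      unfold Gd at hu
      have e := hgood (u.1.val, u.2.val) (by omega) hu.2 (by omega) B
      have e2 : ((((u.1.val, u.2.val) : ℕ × ℕ).1 : ZMod (2 * n)),
          (((u.1.val, u.2.val) : ℕ × ℕ).2 : ZMod (2 * n))) = u :=
        Prod.ext (ZMod.natCast_zmod_val u.1) (ZMod.natCast_zmod_val u.2)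
      rw [e2] at e
      rw [e, sub_self, norm_zero]
  refine (norm_sum_le _ _).trans ((Finset.sum_le_sum fun u _ => hterm u).trans ?_)
  rw [← Finset.sum_filter, Finset.sum_const, nsmul_eq_mul]
  have hc := card_bad r n hrn
  have hc' : (((Finset.univ : Finset (Site (2 * n))).filter fun u => ¬ Gd r n u).card : ℝ) ≤
      6 * r * n := by exact_mod_cast hc
  linarith

end Pool.Agent.N289.TP
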